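import Mathlib
import Pool.Agent.Q269.Hess27D

/-!
# MP_51245c_nt: exactly 27 NRS-matrices `H(m,n)` are not ς-reduced

`H(m,n)` is the family of Hessenberg matrices of the problem; its characteristic polynomial is
`t³ - (3n+1) t² + (3n-6m-3) t - 1`.  It is proved that there are exactly 27 pairs `(m,n)` for which
`H(m,n)` is an NRS-matrix and not ς-reduced, and they are listed.

Proof.  Put `T = 3n+1`, `S = 3n-6m-3`.  For an integral vector `v`, `18 det(v, Hv, H²v)` is the norm of
an element of `ℤ[t]`, `t³ - T t² + S t - 1 = 0`, whose coordinates satisfy congruences modulo 2 and 3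
which are stable under multiplication by the unit `t`.  By `t → 1/t` we may suppose that the real
root `r` is larger than 1; call the coefficients `P`, `Q`.  If `P ≤ 14` there are only finitely many
pairs.  If `P ≥ 15` then `E = 4P - Q² ≥ 4`; an element `x + y t + z t²` of norm `< 216` is
multiplied by a power of `t` so that its real conjugate lies in `(r/3, r²/3]`, and Cauchy's
inequality for the complex conjugates bounds `x`, `2y + Qx` and `z`.  For `P E ≥ 5000` this gives
`z = 0` and then a contradiction; for `P E < 5000` there are 122 pairs, and for all but the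
exceptional ones the kernel checks the remaining box.
-/

namespace Pool.Agent.Results.MP_51245c_nt.ExactlyTwentySeven

open Matrix
open Pool.Agent.Q149.Hess (Nf Data Nf_symm)
open Pool.Agent.Q269.Hess27

/-- The 27 pairs `(m, n)`. -/
def twentySeven : Finset (ℤ × ℤ) :=
  {(-21, -7), (-8, -4), (-6, -3), (-5, -3), (-4, -2), (-3, -2), (-3, -1), (-2, -1), (-2, 0),
   (-1, 0), (-2, 1), (-1, 1), (0, 1), (-2, 2), (0, 2), (1, 2), (0, 3), (1, 3), (2, 3),
   (1, 4), (2, 4), (-9, 5), (1, 5), (3, 5), (2, 8), (10, 27), (16, 27)}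

lemma of_mul_transpose (Y : Matrix (Fin 3) (Fin 3) ℤ) (f g h : Fin 3 → ℤ) :
    (Matrix.of ![Y *ᵥ f, Y *ᵥ g, Y *ᵥ h]) = (Matrix.of ![f, g, h]) * Yᵀ := by
  ext i j
  rw [Matrix.mul_apply]
  fin_cases i <;> simp [Matrix.mulVec, dotProduct, mul_comm]

/-- The complexity of a conjugate Hessenberg matrix is a value of `Δ`. -/
lemma complexity_conj {A B : Matrix (Fin 3) (Fin 3) ℤ} (hB : IsHessenberg B) (h : IntConj A B) :
    ∃ w : Fin 3 → ℤ, w ≠ 0 ∧
      complexity B = |(Matrix.of ![w, A *ᵥ w, A *ᵥ (A *ᵥ w)]).det| := by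
  obtain ⟨X, hX⟩ := h
  obtain ⟨Y, hY⟩ : ∃ Y : Matrix (Fin 3) (Fin 3) ℤ,
    Y = ((X⁻¹ : GL (Fin 3) ℤ) : Matrix (Fin 3) (Fin 3) ℤ) := ⟨_, rfl⟩
  rw [← hY] at hX
  have h1 : (X : Matrix (Fin 3) (Fin 3) ℤ) * Y = 1 := by rw [hY]; exact Units.mul_inv X
  have h2 : Y * (X : Matrix (Fin 3) (Fin 3) ℤ) = 1 := by rw [hY]; exact Units.inv_mul X
  have h3 : A * Y = Y * B := by
    rw [hX, ← Matrix.mul_assoc, ← Matrix.mul_assoc, h2, Matrix.one_mul]
  have hdet : |Y.det| = 1 := by
    have : Y.det * (X : Matrix (Fin 3) (Fin 3) ℤ).det = 1 := by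
      rw [← Matrix.det_mul, h2, Matrix.det_one]
    rcases Int.isUnit_iff.mp (IsUnit.of_mul_eq_one _ this) with h | h <;> rw [h] <;> norm_num
  obtain ⟨e, he⟩ : ∃ e : Fin 3 → ℤ, e = ![1, 0, 0] := ⟨_, rfl⟩
  have h4 : A *ᵥ (Y *ᵥ e) = Y *ᵥ (B *ᵥ e) := by
    rw [Matrix.mulVec_mulVec, h3, ← Matrix.mulVec_mulVec]
  have h5 : A *ᵥ (A *ᵥ (Y *ᵥ e)) = Y *ᵥ (B *ᵥ (B *ᵥ e)) := by
    rw [h4, Matrix.mulVec_mulVec, h3, ← Matrix.mulVec_mulVec]
  refine ⟨Y *ᵥ e, ?_, ?_⟩
  · intro h0
    have h6 : (X : Matrix (Fin 3) (Fin 3) ℤ) *ᵥ (Y *ᵥ e) = e := by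
      rw [Matrix.mulVec_mulVec, h1, Matrix.one_mulVec]
    rw [h0, Matrix.mulVec_zero, he] at h6
    have := congrFun h6 0
    simp at this
  · rw [h5, h4]
    rw [of_mul_transpose, Matrix.det_mul, Matrix.det_transpose, abs_mul, hdet, mul_one]
    have h7 : B 2 0 = 0 := hB
    have h8 : (Matrix.of ![e, B *ᵥ e, B *ᵥ (B *ᵥ e)]).det = (B 1 0)^2 * B 2 1 := by
      have g1 : B *ᵥ e = ![B 0 0, B 1 0, 0] := by
        rw [he]
        ext i
        fin_cases i <;> simp [Matrix.mulVec, dotProduct, Fin.sum_univ_three, h7]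
      have g2 : B *ᵥ ![B 0 0, B 1 0, 0]
          = ![B 0 0 * B 0 0 + B 0 1 * B 1 0, B 1 0 * B 0 0 + B 1 1 * B 1 0, B 2 1 * B 1 0] := by
        ext i
        fin_cases i <;> simp [Matrix.mulVec, dotProduct, Fin.sum_univ_three, h7]
      rw [g1, g2, he, Matrix.det_fin_three]
      simp [Matrix.of_apply]
      ring
    rw [h8, abs_mul, abs_of_nonneg (sq_nonneg (B 1 0))]
    rfl

lemma complexity_H (m n : ℤ) : complexity (H m n) = 12 := by
  simp [complexity, H]

/-- Outside the list, `H(m,n)` is reduced. -/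
lemma reduced_of {m n : ℤ} (hN : NRS (H m n)) (hex : (m, n) ∉ twentySeven) : Reduced (H m n) := by
  intro B hB hc
  obtain ⟨w, hw, e⟩ := complexity_conj hB hc
  rw [e, complexity_H]
  have hwe : w = ![w 0, w 1, w 2] := by
    ext i; fin_cases i <;> rfl
  have hF : (Matrix.of ![w, H m n *ᵥ w, H m n *ᵥ (H m n *ᵥ w)]).det = F m n (w 0) (w 1) (w 2) := by
    unfold F
    rw [← hwe]
  rw [hF]
  obtain ⟨v0, h0⟩ : ∃ t, t = w 0 := ⟨_, rfl⟩
  obtain ⟨v1, h1⟩ : ∃ t, t = w 1 := ⟨_, rfl⟩
  obtain ⟨v2, h2⟩ : ∃ t, t = w 2 := ⟨_, rfl⟩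
  rw [← h0, ← h1, ← h2]
  have key := F_eq m n v0 v1 v2
  have hne : Nf (3*n+1) (3*n-6*m-3) (6*v0-3*v1-v2) (3*v1-2*v2) v2 ≠ 0 := by
    intro hz
    obtain ⟨g1, g2, g3⟩ := hN.Nf_ne hz
    apply hw
    ext i
    fin_cases i
    · show w 0 = 0
      omega
    · show w 1 = 0
      omega
    · show w 2 = 0
      omega
  have fin : ∀ m' n' : ℤ, m = m' → n = n' → (m', n') ∈ twentySeven → False := by
    rintro m' n' rfl rfl h; exact hex h
  have goal216 : 216 ≤ |Nf (3*n+1) (3*n-6*m-3) (6*v0-3*v1-v2) (3*v1-2*v2) v2| := by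
    obtain ⟨r, a, b, hd⟩ := data_of hN.disc
    have hr0 := hd.τpos
    rcases lt_trichotomy r 1 with hr | hr | hr
    · have hd' := hd.symm
      have hr' : 1 < r⁻¹ := (one_lt_inv₀ hr0).mpr hr
      rw [Nf_symm] at hne ⊢
      refine main hd' hr' (ε := -1) ?_ ?_ ?_ hne
      · refine ⟨⟨-(3*m+2), by ring⟩, Or.inr ⟨rfl, ⟨n-2*m-1, by ring⟩, ⟨n, by ring⟩⟩⟩
      · intro hx
        have : ¬ ((-1:ℤ) = 1) := by decide
        simp only [exc, if_neg this, List.mem_cons, Prod.mk.injEq, List.not_mem_nil, or_false] at hx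
        rcases hx with h | h | h | h | h | h | h | h | h | h | h | h | h | h
        · exact fin (-21) (-7) (by omega) (by omega) (by decide)
        · exact fin (-8) (-4) (by omega) (by omega) (by decide)
        · exact fin (-6) (-3) (by omega) (by omega) (by decide)
        · exact fin (-5) (-3) (by omega) (by omega) (by decide)
        · exact fin (-4) (-2) (by omega) (by omega) (by decide)
        · exact fin (-3) (-2) (by omega) (by omega) (by decide)
        · exact fin (-3) (-1) (by omega) (by omega) (by decide)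
        · exact fin (-2) (-1) (by omega) (by omega) (by decide)
        · exact fin (-2) (0) (by omega) (by omega) (by decide)
        · exact fin (-1) (0) (by omega) (by omega) (by decide)
        · exact fin (-2) (1) (by omega) (by omega) (by decide)
        · exact fin (-1) (1) (by omega) (by omega) (by decide)
        · exact fin (-2) (2) (by omega) (by omega) (by decide)
        · exact fin (-9) (5) (by omega) (by omega) (by decide)
      · exact ⟨⟨3*v0-v2, by ring⟩, ⟨2*v0-v1, by ring⟩, ⟨2*v0-v2, by ring⟩⟩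
    · exfalso
      apply hN.ne
      have hp := hd.hp
      have hQ := hd.hQ
      have h1' := hd.h1
      rw [hr] at hp hQ h1'
      have : ((3*n+1 : ℤ) : ℝ) = ((3*n-6*m-3 : ℤ) : ℝ) := by rw [hp, hQ]; linarith
      exact_mod_cast this
    · refine main hd hr (ε := 1) ?_ ?_ ?_ hne
      · refine ⟨⟨3*m+2, by ring⟩, Or.inl ⟨rfl, ⟨n, by ring⟩, ⟨n-2*m-1, by ring⟩⟩⟩
      · intro hx
        simp only [exc, if_true, List.mem_cons, Prod.mk.injEq, List.not_mem_nil, or_false] at hx
        rcases hx with h | h | h | h | h | h | h | h | h | h | h | h | h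
        · exact fin (0) (1) (by omega) (by omega) (by decide)
        · exact fin (0) (2) (by omega) (by omega) (by decide)
        · exact fin (1) (2) (by omega) (by omega) (by decide)
        · exact fin (0) (3) (by omega) (by omega) (by decide)
        · exact fin (1) (3) (by omega) (by omega) (by decide)
        · exact fin (2) (3) (by omega) (by omega) (by decide)
        · exact fin (1) (4) (by omega) (by omega) (by decide)
        · exact fin (2) (4) (by omega) (by omega) (by decide)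
        · exact fin (1) (5) (by omega) (by omega) (by decide)
        · exact fin (3) (5) (by omega) (by omega) (by decide)
        · exact fin (2) (8) (by omega) (by omega) (by decide)
        · exact fin (10) (27) (by omega) (by omega) (by decide)
        · exact fin (16) (27) (by omega) (by omega) (by decide)
      · exact ⟨⟨3*v0-v2, by ring⟩, ⟨2*v0-v1, by ring⟩, ⟨v1-v2, by ring⟩⟩
  rw [← key, abs_mul] at goal216
  have : |(18:ℤ)| = 18 := by norm_num
  rw [this] at goal216
  omega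

lemma not_reduced_of {m n : ℤ} (X Y B : Matrix (Fin 3) (Fin 3) ℤ) (h1 : X * Y = 1)
    (h2 : Y * X = 1) (h3 : B = X * H m n * Y) (h4 : B 2 0 = 0) (h5 : (B 1 0)^2 * |B 2 1| < 12) :
    ¬ Reduced (H m n) := by
  intro h
  have := h B h4 ⟨⟨X, Y, h1, h2⟩, h3⟩
  rw [complexity_H] at this
  have e : complexity B = (B 1 0)^2 * |B 2 1| := rfl
  omega

lemma of_mem {m n : ℤ} (h : (m, n) ∈ twentySeven) : NRS (H m n) ∧ ¬ Reduced (H m n) := by
  simp only [twentySeven, Finset.mem_insert, Finset.mem_singleton, Prod.mk.injEq] at h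
  rcases h with ⟨rfl, rfl⟩ | ⟨rfl, rfl⟩ | ⟨rfl, rfl⟩ | ⟨rfl, rfl⟩ | ⟨rfl, rfl⟩ | ⟨rfl, rfl⟩ |
    ⟨rfl, rfl⟩ | ⟨rfl, rfl⟩ | ⟨rfl, rfl⟩ | ⟨rfl, rfl⟩ | ⟨rfl, rfl⟩ | ⟨rfl, rfl⟩ | ⟨rfl, rfl⟩ |
    ⟨rfl, rfl⟩ | ⟨rfl, rfl⟩ | ⟨rfl, rfl⟩ | ⟨rfl, rfl⟩ | ⟨rfl, rfl⟩ | ⟨rfl, rfl⟩ | ⟨rfl, rfl⟩ |
    ⟨rfl, rfl⟩ | ⟨rfl, rfl⟩ | ⟨rfl, rfl⟩ | ⟨rfl, rfl⟩ | ⟨rfl, rfl⟩ | ⟨rfl, rfl⟩ | ⟨rfl, rfl⟩
  · exact ⟨nrs_of (by norm_num) (by norm_num) (by norm_num), not_reduced_of
      !![0, 0, 1; 0, 1, -4; 1, -2, 6]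
      !![2, 2, 1; 4, 1, 0; 1, 0, 0]
      !![-10, 3, 0; -1, -7, 2; 0, 11, -3]
      (by decide +kernel) (by decide +kernel) (by decide +kernel) (by decide +kernel)
      (by decide +kernel)⟩
  · exact ⟨nrs_of (by norm_num) (by norm_num) (by norm_num), not_reduced_of
      !![1, 0, 0; -2, 1, 0; 1, -1, 1]
      !![1, 0, 0; 2, 1, 0; 1, 1, 1]
      !![-9, -11, -12; 2, 3, 4; 0, -2, -5]
      (by decide +kernel) (by decide +kernel) (by decide +kernel) (by decide +kernel)
      (by decide +kernel)⟩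
  · exact ⟨nrs_of (by norm_num) (by norm_num) (by norm_num), not_reduced_of
      !![1, 0, 0; -2, 1, 0; 3, -2, 1]
      !![1, 0, 0; 2, 1, 0; 1, 2, 1]
      !![-6, -17, -9; 1, 5, 3; 0, -10, -7]
      (by decide +kernel) (by decide +kernel) (by decide +kernel) (by decide +kernel)
      (by decide +kernel)⟩
  · exact ⟨nrs_of (by norm_num) (by norm_num) (by norm_num), not_reduced_of
      !![1, 0, 0; -2, 1, 0; 1, -1, 1]
      !![1, 0, 0; 2, 1, 0; 1, 1, 1]
      !![-5, -7, -8; 1, 2, 3; 0, -2, -5]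
      (by decide +kernel) (by decide +kernel) (by decide +kernel) (by decide +kernel)
      (by decide +kernel)⟩
  · exact ⟨nrs_of (by norm_num) (by norm_num) (by norm_num), not_reduced_of
      !![1, 0, 0; -1, 0, 1; -2, 1, 0]
      !![1, 0, 0; 2, 0, 1; 1, 1, 0]
      !![-3, -6, 1; 2, -1, 2; 0, 2, -1]
      (by decide +kernel) (by decide +kernel) (by decide +kernel) (by decide +kernel)
      (by decide +kernel)⟩
  · exact ⟨nrs_of (by norm_num) (by norm_num) (by norm_num), not_reduced_of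
      !![1, 0, 0; 85, -38, -17; -190, 85, 38]
      !![1, 0, 0; 0, 38, 17; 5, -85, -38]
      !![-24, 463, 207; -1, 18, 8; 0, 2, 1]
      (by decide +kernel) (by decide +kernel) (by decide +kernel) (by decide +kernel)
      (by decide +kernel)⟩
  · exact ⟨nrs_of (by norm_num) (by norm_num) (by norm_num), not_reduced_of
      !![1, 0, 0; -2, 1, 0; -7, 3, 1]
      !![1, 0, 0; 2, 1, 0; 1, -3, 1]
      !![-1, 13, -4; -1, -4, 1; 0, -10, 3]
      (by decide +kernel) (by decide +kernel) (by decide +kernel) (by decide +kernel)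
      (by decide +kernel)⟩
  · exact ⟨nrs_of (by norm_num) (by norm_num) (by norm_num), not_reduced_of
      !![0, -1, 0; -14, 6, 3; 33, -14, -7]
      !![0, 7, 3; -1, 0, 0; 2, 33, 14]
      !![11, 151, 64; -1, -14, -6; 0, 2, 1]
      (by decide +kernel) (by decide +kernel) (by decide +kernel) (by decide +kernel)
      (by decide +kernel)⟩
  · exact ⟨nrs_of (by norm_num) (by norm_num) (by norm_num), not_reduced_of
      !![0, -1, 0; -9, 4, 2; 23, -10, -5]
      !![0, 5, 2; -1, 0, 0; 2, 23, 9]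
      !![9, 82, 32; -1, -5, -2; 0, -8, -3]
      (by decide +kernel) (by decide +kernel) (by decide +kernel) (by decide +kernel)
      (by decide +kernel)⟩
  · exact ⟨nrs_of (by norm_num) (by norm_num) (by norm_num), not_reduced_of
      !![0, -1, 0; -3, 1, 1; 7, -2, -2]
      !![0, 2, 1; -1, 0, 0; 1, 7, 3]
      !![3, 10, 4; -1, -2, -1; 0, -1, 0]
      (by decide +kernel) (by decide +kernel) (by decide +kernel) (by decide +kernel)
      (by decide +kernel)⟩
  · exact ⟨nrs_of (by norm_num) (by norm_num) (by norm_num), not_reduced_of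
      !![0, 0, -1; 1, 0, 0; -3, 1, 0]
      !![0, 1, 0; 0, 3, 1; -1, 0, 0]
      !![2, -9, -3; 1, 4, 1; 0, -7, -2]
      (by decide +kernel) (by decide +kernel) (by decide +kernel) (by decide +kernel)
      (by decide +kernel)⟩
  · exact ⟨nrs_of (by norm_num) (by norm_num) (by norm_num), not_reduced_of
      !![0, -1, 0; 1, 0, 0; -5, 2, 1]
      !![0, 1, 0; -1, 0, 0; 2, 5, 1]
      !![3, 3, 1; -1, 1, 0; 0, -1, 0]
      (by decide +kernel) (by decide +kernel) (by decide +kernel) (by decide +kernel)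
      (by decide +kernel)⟩
  · exact ⟨nrs_of (by norm_num) (by norm_num) (by norm_num), not_reduced_of
      !![0, 1, 1; 1, 0, 0; 3, 5, 4]
      !![0, 1, 0; -4, -3, 1; 5, 3, -1]
      !![-1, -1, 1; 1, 1, 0; 0, 1, 4]
      (by decide +kernel) (by decide +kernel) (by decide +kernel) (by decide +kernel)
      (by decide +kernel)⟩
  · exact ⟨nrs_of (by norm_num) (by norm_num) (by norm_num), not_reduced_of
      !![0, -3, -1; 1, 0, 0; 11, -5, -2]
      !![0, 1, 0; -2, -11, 1; 5, 33, -3]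
      !![17, 93, -9; -2, -10, 1; 0, 1, 0]
      (by decide +kernel) (by decide +kernel) (by decide +kernel) (by decide +kernel)
      (by decide +kernel)⟩
  · exact ⟨nrs_of (by norm_num) (by norm_num) (by norm_num), not_reduced_of
      !![0, -1, 0; 1, 0, 0; -3, 1, 1]
      !![0, 1, 0; -1, 0, 0; 1, 3, 1]
      !![-1, -8, -2; 1, 7, 2; 0, 2, 1]
      (by decide +kernel) (by decide +kernel) (by decide +kernel) (by decide +kernel)
      (by decide +kernel)⟩
  · exact ⟨nrs_of (by norm_num) (by norm_num) (by norm_num), not_reduced_of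
      !![0, 0, 1; 1, 0, 0; 0, 1, 2]
      !![0, 1, 0; -2, 0, 1; 1, 0, 0]
      !![-1, 0, 3; 1, 1, 1; 0, 2, 7]
      (by decide +kernel) (by decide +kernel) (by decide +kernel) (by decide +kernel)
      (by decide +kernel)⟩
  · exact ⟨nrs_of (by norm_num) (by norm_num) (by norm_num), not_reduced_of
      !![0, -1, 0; -3, 1, 1; 7, -2, -2]
      !![0, 2, 1; -1, 0, 0; 1, 7, 3]
      !![-2, -25, -11; 1, 12, 5; 0, -1, 0]
      (by decide +kernel) (by decide +kernel) (by decide +kernel) (by decide +kernel)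
      (by decide +kernel)⟩
  · exact ⟨nrs_of (by norm_num) (by norm_num) (by norm_num), not_reduced_of
      !![0, 0, -1; -1, 1, 0; 5, -4, 0]
      !![0, 4, 1; 0, 5, 1; -1, 0, 0]
      !![8, -15, -3; -1, 4, 1; 0, -7, -2]
      (by decide +kernel) (by decide +kernel) (by decide +kernel) (by decide +kernel)
      (by decide +kernel)⟩
  · exact ⟨nrs_of (by norm_num) (by norm_num) (by norm_num), not_reduced_of
      !![0, 0, -1; 3, -2, 0; -7, 5, 0]
      !![0, 5, 2; 0, 7, 3; -1, 0, 0]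
      !![8, -21, -9; -1, 2, 1; 0, 1, 0]
      (by decide +kernel) (by decide +kernel) (by decide +kernel) (by decide +kernel)
      (by decide +kernel)⟩
  · exact ⟨nrs_of (by norm_num) (by norm_num) (by norm_num), not_reduced_of
      !![1, 0, 0; -2, 0, 1; 5, 1, -3]
      !![1, 0, 0; 1, 3, 1; 2, 1, 0]
      !![12, 8, 1; 1, 4, 1; 0, -11, -3]
      (by decide +kernel) (by decide +kernel) (by decide +kernel) (by decide +kernel)
      (by decide +kernel)⟩
  · exact ⟨nrs_of (by norm_num) (by norm_num) (by norm_num), not_reduced_of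
      !![0, 0, 1; 1, 0, 0; 0, 1, 4]
      !![0, 1, 0; -4, 0, 1; 1, 0, 0]
      !![-1, 0, 3; 2, 1, 1; 0, 2, 13]
      (by decide +kernel) (by decide +kernel) (by decide +kernel) (by decide +kernel)
      (by decide +kernel)⟩
  · exact ⟨nrs_of (by norm_num) (by norm_num) (by norm_num), not_reduced_of
      !![1, 0, 0; 1, 0, 1; 1, 1, 3]
      !![1, 0, 0; 2, -3, 1; -1, 1, 0]
      !![7, -7, 1; -1, -2, 4; 0, -8, 11]
      (by decide +kernel) (by decide +kernel) (by decide +kernel) (by decide +kernel)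
      (by decide +kernel)⟩
  · exact ⟨nrs_of (by norm_num) (by norm_num) (by norm_num), not_reduced_of
      !![1, 0, 0; 8, -3, -2; -29, 11, 7]
      !![1, 0, 0; 2, 7, 2; 1, -11, -3]
      !![9, -59, -16; -1, 4, 1; 0, 10, 3]
      (by decide +kernel) (by decide +kernel) (by decide +kernel) (by decide +kernel)
      (by decide +kernel)⟩
  · exact ⟨nrs_of (by norm_num) (by norm_num) (by norm_num), not_reduced_of
      !![0, 0, -1; -4, 3, 0; 11, -8, 0]
      !![0, 8, 3; 0, 11, 4; -1, 0, 0]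
      !![14, -33, -12; -1, 5, 2; 0, -7, -3]
      (by decide +kernel) (by decide +kernel) (by decide +kernel) (by decide +kernel)
      (by decide +kernel)⟩
  · exact ⟨nrs_of (by norm_num) (by norm_num) (by norm_num), not_reduced_of
      !![1, 0, 0; 8, -3, -2; -21, 8, 5]
      !![1, 0, 0; 2, 5, 2; 1, -8, -3]
      !![13, -75, -28; -2, 11, 4; 0, 2, 1]
      (by decide +kernel) (by decide +kernel) (by decide +kernel) (by decide +kernel)
      (by decide +kernel)⟩
  · exact ⟨nrs_of (by norm_num) (by norm_num) (by norm_num), not_reduced_of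
      !![0, 0, 1; 111, -50, -22; -313, 141, 62]
      !![2, 141, 50; 4, 313, 111; 1, 0, 0]
      !![92, 939, 333; -1, -14, -5; 0, 11, 4]
      (by decide +kernel) (by decide +kernel) (by decide +kernel) (by decide +kernel)
      (by decide +kernel)⟩
  · exact ⟨nrs_of (by norm_num) (by norm_num) (by norm_num), not_reduced_of
      !![1, 0, 0; 73, -41, -9; -203, 114, 25]
      !![1, 0, 0; 2, 25, 9; -1, -114, -41]
      !![-40, -4877, -1754; 1, 125, 45; 0, -8, -3]
      (by decide +kernel) (by decide +kernel) (by decide +kernel) (by decide +kernel)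
      (by decide +kernel)⟩

/-- **MP_51245c_nt, Q1.**  There are exactly 27 pairs `(m,n)` for which `H(m,n)` is an NRS-matrix
and not ς-reduced; they form the explicit list `twentySeven`. -/
theorem result :
    {mn : ℤ × ℤ | NRS (H mn.1 mn.2) ∧ ¬ Reduced (H mn.1 mn.2)}.ncard = 27 ∧
      {mn : ℤ × ℤ | NRS (H mn.1 mn.2) ∧ ¬ Reduced (H mn.1 mn.2)}
        = (twentySeven : Set (ℤ × ℤ)) := by
  have h : {mn : ℤ × ℤ | NRS (H mn.1 mn.2) ∧ ¬ Reduced (H mn.1 mn.2)}
      = (twentySeven : Set (ℤ × ℤ)) := by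
    ext ⟨m, n⟩
    constructor
    · rintro ⟨h1, h2⟩
      by_contra hc
      exact h2 (reduced_of h1 hc)
    · intro h1
      exact of_mem h1
  refine ⟨?_, h⟩
  rw [h, Set.ncard_coe_finset]
  rfl

end Pool.Agent.Results.MP_51245c_nt.ExactlyTwentySeven
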